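import Mathlib

/-!
Kotzig's question on strongly regular self-complementary graphs has a negative answer:
every vertex-transitive self-complementary graph satisfies `F(G) = V(G)` and `N(G) = E(G)`, and the
circulant graph on `ZMod 13` with connection set `{±1, ±2, ±4}` is vertex-transitive and
self-complementary, but not strongly regular.
-/

namespace Pool.Agent.Results.MP_a93e77_co.VertexTransitiveCounterexample

/-- `P` is an isomorphism-permutation of `G`: an isomorphism from `G` onto its complement. -/
def IsIsoPerm {V : Type*} (G : SimpleGraph V) (P : Equiv.Perm V) : Prop :=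
  ∀ u v, u ≠ v → (G.Adj u v ↔ ¬ G.Adj (P u) (P v))

/-- The graph is self-complementary. -/
def SelfCompl {V : Type*} (G : SimpleGraph V) : Prop := ∃ P, IsIsoPerm G P

/-- `F(G)`: the vertices fixed by some isomorphism-permutation. -/
def fixSet {V : Type*} (G : SimpleGraph V) : Set V := {v | ∃ P, IsIsoPerm G P ∧ P v = v}

/-- `N(G)`: the edges `uv` such that `P u = v` or `P v = u` for some isomorphism-permutation. -/
def consecEdges {V : Type*} (G : SimpleGraph V) : Set (Sym2 V) :=
  {e | ∃ u v, e = s(u, v) ∧ G.Adj u v ∧ ∃ P, IsIsoPerm G P ∧ (P u = v ∨ P v = u)}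

/-- `G` is strongly regular: regular, all edges lie in the same number of triangles, and any two
distinct non-adjacent vertices have the same number of common neighbours. -/
def StronglyRegular {V : Type*} (G : SimpleGraph V) : Prop :=
  (∃ k : ℕ, ∀ v, (G.neighborSet v).ncard = k) ∧
  (∃ l : ℕ, ∀ u v, G.Adj u v → (G.commonNeighbors u v).ncard = l) ∧
  (∃ m : ℕ, ∀ u v, u ≠ v → ¬ G.Adj u v → (G.commonNeighbors u v).ncard = m)

/-- `G` is vertex-transitive. -/
def VertexTransitive {V : Type*} (G : SimpleGraph V) : Prop :=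
  ∀ u v, ∃ φ : Equiv.Perm V, (∀ a b, G.Adj (φ a) (φ b) ↔ G.Adj a b) ∧ φ u = v

theorem exists_isoPerm {V : Type*} {G : SimpleGraph V} (hs : SelfCompl G)
    (ht : VertexTransitive G) (u v : V) : ∃ P, IsIsoPerm G P ∧ P u = v := by
  obtain ⟨P, hP⟩ := hs
  obtain ⟨φ, hφ, h⟩ := ht (P u) v
  refine ⟨P.trans φ, ?_, by simpa using h⟩
  intro a b hab
  rw [hP a b hab]
  simp only [Equiv.trans_apply, hφ]

theorem fixSet_eq {V : Type*} {G : SimpleGraph V} (hs : SelfCompl G)
    (ht : VertexTransitive G) : fixSet G = Set.univ := by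
  ext v
  simpa [fixSet] using exists_isoPerm hs ht v v

theorem consecEdges_eq {V : Type*} {G : SimpleGraph V} (hs : SelfCompl G)
    (ht : VertexTransitive G) : consecEdges G = G.edgeSet := by
  ext e
  constructor
  · rintro ⟨u, v, rfl, h, -⟩
    simpa using h
  · induction e using Sym2.ind with
    | _ u v =>
      intro h
      obtain ⟨P, hP, hPv⟩ := exists_isoPerm hs ht u v
      exact ⟨u, v, rfl, by simpa using h, P, hP, Or.inl hPv⟩

/-- The circulant graph on `ZMod 13` with connection set `{±1, ±2, ±4}`. -/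
def G13 : SimpleGraph (ZMod 13) where
  Adj x y := y - x ∈ ({1, 2, 4, 9, 11, 12} : Finset (ZMod 13))
  symm := ⟨by decide⟩
  loopless := ⟨by decide⟩

instance : DecidableRel G13.Adj := fun x y => by unfold G13; infer_instance

theorem G13_transitive : VertexTransitive G13 := by
  intro u v
  refine ⟨Equiv.addRight (v - u), ?_, by simp⟩
  intro a b
  simp [G13]

/-- Multiplication by `8` on `ZMod 13` (inverse: multiplication by `5`). -/
def mul8 : Equiv.Perm (ZMod 13) where
  toFun x := 8 * x
  invFun x := 5 * x
  left_inv := by decide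
  right_inv := by decide

theorem G13_selfCompl : SelfCompl G13 := by
  refine ⟨mul8, ?_⟩
  unfold IsIsoPerm
  decide

theorem G13_degree (v : ZMod 13) : (G13.neighborSet v).ncard = 6 := by
  have h : ∀ v : ZMod 13, (Finset.univ.filter (fun w => G13.Adj v w)).card = 6 := by decide
  rw [← h v, ← Set.ncard_coe_finset]
  congr 1
  ext w
  simp

theorem commonNeighbors_ncard (u v : ZMod 13) : (G13.commonNeighbors u v).ncard =
    (Finset.univ.filter (fun w => G13.Adj u w ∧ G13.Adj v w)).card := by
  rw [← Set.ncard_coe_finset]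
  congr 1
  ext w
  simp [SimpleGraph.mem_commonNeighbors]

theorem G13_not_srg : ¬ StronglyRegular G13 := by
  rintro ⟨-, ⟨l, hl⟩, -⟩
  have h1 := hl 0 1 (by decide)
  have h2 := hl 0 2 (by decide)
  rw [commonNeighbors_ncard] at h1 h2
  have e1 : (Finset.univ.filter (fun w => G13.Adj 0 w ∧ G13.Adj 1 w)).card = 2 := by decide
  have e2 : (Finset.univ.filter (fun w => G13.Adj 0 w ∧ G13.Adj 2 w)).card = 3 := by decide
  omega

/-- Negative answer to Q1, together with the general reason: every vertex-transitive
self-complementary graph has `F(G) = V(G)` and `N(G) = E(G)`. -/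
theorem result :
    (∀ (V : Type) (G : SimpleGraph V), SelfCompl G → VertexTransitive G →
      fixSet G = Set.univ ∧ consecEdges G = G.edgeSet) ∧
    (∃ G : SimpleGraph (ZMod 13), SelfCompl G ∧ VertexTransitive G ∧
      (∀ v, (G.neighborSet v).ncard = 6) ∧ fixSet G = Set.univ ∧ consecEdges G = G.edgeSet ∧
      ¬ StronglyRegular G) ∧
    ¬ (∀ (V : Type) [Finite V] (G : SimpleGraph V) (k : ℕ),
      (∀ v, (G.neighborSet v).ncard = k) → SelfCompl G →
      (StronglyRegular G ↔ (fixSet G = Set.univ ∧ consecEdges G = G.edgeSet))) := by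
  refine ⟨fun V G hs ht => ⟨fixSet_eq hs ht, consecEdges_eq hs ht⟩,
    ⟨G13, G13_selfCompl, G13_transitive, G13_degree, fixSet_eq G13_selfCompl G13_transitive,
      consecEdges_eq G13_selfCompl G13_transitive, G13_not_srg⟩, ?_⟩
  intro h
  exact G13_not_srg ((h (ZMod 13) G13 6 G13_degree G13_selfCompl).2
    ⟨fixSet_eq G13_selfCompl G13_transitive, consecEdges_eq G13_selfCompl G13_transitive⟩)

end Pool.Agent.Results.MP_a93e77_co.VertexTransitiveCounterexample
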